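import Pool.Agent.W922.GY2.Stm

/-! Project GY2, part PSI. -/

namespace Pool.Agent.W208.GY2

open Filter Topology MeasureTheory Set
open scoped Pointwise
open Pool.Agent.W922.GY2

theorem psi : S_PSI := by
  intro G _ _ _ W ℓ M hW h1 hM hℓ hinv hPP
  classical
  let c : List G → ℝ := fun L => max 0 (1 - M * cost ℓ L)
  let S : List G → Set G := fun L => {x | L.prod⁻¹ * x ∈ W}
  let f : List G → G → ℝ := fun L => Set.indicator (S L) (fun _ => c L)
  have hcost : ∀ L, 0 ≤ cost ℓ L := by
    intro L
    apply List.sum_nonneg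
    intro a ha
    obtain ⟨b, _, rfl⟩ := List.mem_map.1 ha
    exact hℓ b
  have hc0 : ∀ L, 0 ≤ c L := fun L => le_max_left _ _
  have hc1 : ∀ L, c L ≤ 1 := by
    intro L
    apply max_le zero_le_one
    have := mul_nonneg hM (hcost L)
    linarith
  have hf0 : ∀ L x, 0 ≤ f L x := fun L x => Set.indicator_nonneg (fun _ _ => hc0 L) x
  have hf1 : ∀ L x, f L x ≤ 1 := by
    intro L x
    by_cases hx : x ∈ S L
    · simp only [f, Set.indicator_of_mem hx]; exact hc1 L
    · simp only [f, Set.indicator_of_notMem hx]; exact zero_le_one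
  have hbdd : ∀ x, BddAbove (Set.range fun L => f L x) := by
    intro x
    refine ⟨1, ?_⟩
    rintro _ ⟨L, rfl⟩
    exact hf1 L x
  have hSo : ∀ L, IsOpen (S L) := fun L => hW.preimage (continuous_const.mul continuous_id)
  have key : ∀ g x, (⨆ L, f L (g⁻¹ * x)) ≤ (⨆ L, f L x) + M * ℓ g := by
    intro g x
    apply ciSup_le
    intro L
    have hMg : 0 ≤ M * ℓ g := mul_nonneg hM (hℓ g)
    have hsup0 : 0 ≤ ⨆ L, f L x := (hf0 [] x).trans (le_ciSup (hbdd x) [])
    by_cases hx : (g⁻¹ * x) ∈ S L
    · have hx' : x ∈ S (g :: L) := by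
        change (g :: L).prod⁻¹ * x ∈ W
        rw [List.prod_cons, mul_inv_rev, mul_assoc]
        exact hx
      have e1 : f L (g⁻¹ * x) = c L := by simp only [f, Set.indicator_of_mem hx]
      have e2 : f (g :: L) x = c (g :: L) := by simp only [f, Set.indicator_of_mem hx']
      have e3 : c L ≤ c (g :: L) + M * ℓ g := by
        have e4 : cost ℓ (g :: L) = ℓ g + cost ℓ L := by simp [cost]
        simp only [c, e4]
        apply max_le
        · have := le_max_left (0 : ℝ) (1 - M * (ℓ g + cost ℓ L))
          linarith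
        · have := le_max_right (0 : ℝ) (1 - M * (ℓ g + cost ℓ L))
          linarith
      have e5 : f (g :: L) x ≤ ⨆ L, f L x := le_ciSup (hbdd x) (g :: L)
      linarith
    · have e1 : f L (g⁻¹ * x) = 0 := by simp only [f, Set.indicator_of_notMem hx]
      linarith
  refine ⟨fun x => ⨆ L, f L x, ?_, ?_, ?_, ?_, ?_⟩
  · exact lowerSemicontinuous_ciSup hbdd
      (fun L => IsOpen.lowerSemicontinuous_indicator (hSo L) (hc0 L))
  · intro x
    exact ⟨(hf0 [] x).trans (le_ciSup (hbdd x) []), ciSup_le (fun L => hf1 L x)⟩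
  · intro x hx
    apply le_antisymm (ciSup_le (fun L => hf1 L x))
    have hx' : x ∈ S [] := by
      change ([] : List G).prod⁻¹ * x ∈ W
      simpa using hx
    have e1 : f [] x = 1 := by
      simp only [f, Set.indicator_of_mem hx', c]
      simp [cost]
    rw [← e1]
    exact le_ciSup (hbdd x) []
  · intro x hx
    have : ∃ L, f L x ≠ 0 := by
      by_contra hcon
      push Not at hcon
      apply hx
      simp [hcon]
    obtain ⟨L, hL⟩ := this
    have hxS : x ∈ S L := by
      by_contra hn
      exact hL (by simp only [f, Set.indicator_of_notMem hn])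
    have hcL : c L ≠ 0 := by
      intro h0
      apply hL
      simp only [f, Set.indicator_of_mem hxS, h0]
    have hlt : M * cost ℓ L < 1 := by
      by_contra hn
      apply hcL
      simp only [c]
      apply max_eq_left
      linarith
    have hLW := hPP L hlt
    exact Set.mem_mul.2 ⟨L.prod, hLW, L.prod⁻¹ * x, hxS, by group⟩
  · intro g x
    have k1 := key g x
    have k2 := key g⁻¹ (g⁻¹ * x)
    rw [inv_inv, mul_inv_cancel_left, hinv] at k2
    rw [abs_le]
    constructor
    · change -(M * ℓ g) ≤ (⨆ L, f L x) - ⨆ L, f L (g⁻¹ * x)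
      linarith
    · change (⨆ L, f L x) - (⨆ L, f L (g⁻¹ * x)) ≤ M * ℓ g
      linarith

end Pool.Agent.W208.GY2
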